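import Mathlib
import Pool.Agent.Helper60.FF.DefsA

set_option autoImplicit false

namespace Pool.Agent.Helper60.FF

open Polynomial

/-- the resultant with default degrees -/
noncomputable def elem_r {F : Type} [Field F] (P f : Polynomial F) : F := resultant P f

theorem elem_r_deg {F : Type} [Field F] {P : Polynomial F} (hP : P.Monic) (f : Polynomial F) (n : ℕ)
    (hn : f.natDegree ≤ n) : resultant P f P.natDegree n = elem_r P f := by
  obtain ⟨k, rfl⟩ := Nat.exists_eq_add_of_le hn
  rw [resultant_add_right_deg _ _ _ _ _ le_rfl]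
  simp [hP.coeff_natDegree, elem_r]

theorem elem_r_mul {F : Type} [Field F] {P : Polynomial F} (hP : P.Monic) (f g : Polynomial F) :
    elem_r P (f * g) = elem_r P f * elem_r P g := by
  have h := resultant_mul_right P f g P.natDegree le_rfl
  rw [elem_r_deg hP _ _ natDegree_mul_le] at h
  exact h

theorem elem_r_one {F : Type} [Field F] (P : Polynomial F) : elem_r P 1 = 1 := by
  unfold elem_r
  rw [natDegree_one]
  simp

theorem elem_r_pow {F : Type} [Field F] {P : Polynomial F} (hP : P.Monic) (f : Polynomial F) (k : ℕ) :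
    elem_r P (f ^ k) = elem_r P f ^ k := by
  induction k with
  | zero => simp [elem_r_one P]
  | succ k ih => rw [pow_succ, elem_r_mul hP, ih, pow_succ]

theorem elem_r_C {F : Type} [Field F] (P : Polynomial F) (c : F) :
    elem_r P (C c) = c ^ P.natDegree := by
  unfold elem_r
  rw [natDegree_C]
  simp

theorem elem_r_add {F : Type} [Field F] {P : Polynomial F} (hP : P.Monic) (f h : Polynomial F) :
    elem_r P (f + P * h) = elem_r P f := by
  set n := max f.natDegree (h.natDegree + P.natDegree) with hn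
  have h1 : f.natDegree ≤ n := le_max_left _ _
  have h2 : h.natDegree + P.natDegree ≤ n := le_max_right _ _
  have h3 : (f + P * h).natDegree ≤ n := by
    refine (natDegree_add_le _ _).trans (max_le h1 ?_)
    exact natDegree_mul_le.trans (by omega)
  rw [← elem_r_deg hP _ n h3, ← elem_r_deg hP _ n h1, resultant_add_mul_right _ _ _ _ _ h2 le_rfl]

theorem elem_r_mul_left {F : Type} [Field F] {P Q : Polynomial F} (hP : P.Monic) (hQ : Q.Monic)
    (f : Polynomial F) : elem_r (P * Q) f = elem_r P f * elem_r Q f := by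
  have h := resultant_mul_left P Q f f.natDegree le_rfl
  rw [← hP.natDegree_mul hQ] at h
  exact h

theorem elem_r_comm {F : Type} [Field F] {P Q : Polynomial F} (h : Even P.natDegree) :
    elem_r P Q = elem_r Q P := by
  unfold elem_r
  rw [resultant_comm, Even.neg_one_pow (h.mul_right _), one_mul]

theorem elem_r_ne {F : Type} [Field F] {P f : Polynomial F} (hP : P.Monic) (h : IsCoprime P f) :
    elem_r P f ≠ 0 := by
  have := (isUnit_resultant_iff_isCoprime (g := f) hP).2 h
  exact this.ne_zero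

theorem elem_coprime {F : Type} [Field F] {P f : Polynomial F} (hP : P.Monic) (h : elem_r P f ≠ 0) :
    IsCoprime P f :=
  (isUnit_resultant_iff_isCoprime (g := f) hP).1 (isUnit_iff_ne_zero.2 h)

/-- the resultant is the norm -/
theorem elem_norm {F : Type} [Field F] [Fintype F] {P : Polynomial F} (hP : P.Monic)
    [hirr : Fact (Irreducible P)] (γ : Polynomial F) :
    Algebra.norm F (AdjoinRoot.mk P γ) = elem_r P γ := by
  classical
  have hP0 : P ≠ 0 := hP.ne_zero
  let L := AlgebraicClosure F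
  let pb := AdjoinRoot.powerBasis hP0
  have hgen : pb.gen = AdjoinRoot.root P := AdjoinRoot.powerBasis_gen hP0
  have hmin : minpoly F pb.gen = P := by
    rw [hgen, AdjoinRoot.minpoly_root hP0, hP.leadingCoeff]; simp
  have : FiniteDimensional F (AdjoinRoot P) := pb.finite
  have : Algebra.IsSeparable F (AdjoinRoot P) := inferInstance
  apply (algebraMap F L).injective
  rw [Algebra.norm_eq_prod_embeddings F L]
  have hsplit : (P.map (algebraMap F L)).Splits := IsAlgClosed.splits _
  have h1 : algebraMap F L (elem_r P γ) = ((P.map (algebraMap F L)).roots.map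
      (γ.map (algebraMap F L)).eval).prod := by
    unfold elem_r
    rw [← resultant_map_map]
    have h2 := resultant_eq_prod_eval (P.map (algebraMap F L)) (γ.map (algebraMap F L))
      γ.natDegree (natDegree_map_le) hsplit
    rw [natDegree_map] at h2
    rw [h2, (hP.map _).leadingCoeff]
    simp
  rw [h1]
  have hsep : (P.map (algebraMap F L)).roots.Nodup := by
    apply nodup_roots
    have : P.Separable := PerfectField.separable_of_irreducible hirr.out
    exact this.map
  rw [Fintype.prod_equiv pb.liftEquiv' (fun σ => σ (AdjoinRoot.mk P γ))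
    (fun x => (γ.map (algebraMap F L)).eval (x : L)) ?_]
  · rw [Finset.prod_mem_multiset _ _ (fun x => (γ.map (algebraMap F L)).eval x) (fun x => rfl),
      Finset.prod_eq_multiset_prod, Multiset.toFinset_val, hmin]
    rw [Multiset.dedup_eq_self.mpr (show (P.aroots L).Nodup from hsep)]
  · intro σ
    rw [PowerBasis.liftEquiv'_apply_coe, hgen, ← AdjoinRoot.aeval_eq, ← Polynomial.aeval_algHom_apply,
      Polynomial.eval_map_algebraMap]

/-- the property used in the induction -/
def elem_H {F : Type} [Field F] [Fintype F] (N : ℕ) (f : Polynomial F) : Prop :=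
  ∃ B : Polynomial F, B ≠ 0 ∧ ∀ P : Polynomial F, P.Monic → IsCoprime P B →
    elem_r P f ^ ((Fintype.card F - 1) / N) = 1

theorem elem_pow_card {F : Type} [Field F] [Fintype F] (N : ℕ) (hN : N ∣ Fintype.card F - 1) (a : F)
    (ha : a ≠ 0) : (a ^ N) ^ ((Fintype.card F - 1) / N) = 1 := by
  rw [← pow_mul, Nat.mul_div_cancel' hN, FiniteField.pow_card_sub_one_eq_one a ha]

theorem elem_start {F : Type} [Field F] [Fintype F] (N : ℕ) (hN0 : 0 < N)
    (hN : N ∣ Fintype.card F - 1) (f : Polynomial F) (hf : f ≠ 0)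
    (hfin : {P : Polynomial F | P.Monic ∧ Irreducible P ∧ ¬ ∃ g : Polynomial F, P ∣ f - g ^ N}.Finite) :
    elem_H N f := by
  classical
  set S := hfin.toFinset with hS
  have hS0 : ∏ P ∈ S, P ≠ 0 := by
    rw [Finset.prod_ne_zero_iff]
    intro P hP
    exact ((hfin.mem_toFinset.1 hP).1).ne_zero
  refine ⟨f * ∏ P ∈ S, P, mul_ne_zero hf hS0, ?_⟩
  have key : ∀ (n : ℕ) (P : Polynomial F), P.natDegree = n → P.Monic →
      IsCoprime P (f * ∏ P ∈ S, P) → elem_r P f ^ ((Fintype.card F - 1) / N) = 1 := by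
    intro n
    induction n using Nat.strong_induction_on with
    | _ n ih =>
      intro P hn hP hcop
      by_cases h0 : n = 0
      · have hP1 : P = 1 := by
          apply hP.natDegree_eq_zero.1; omega
        subst hP1
        have : elem_r (1 : Polynomial F) f = 1 := by
          unfold elem_r
          rw [natDegree_one]; simp
        rw [this, one_pow]
      · have hnu : ¬ IsUnit P := by
          intro hu
          have := natDegree_eq_zero_of_isUnit hu
          omega
        obtain ⟨Q, hQ, hQi, P', rfl⟩ := exists_monic_irreducible_factor P hnu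
        have hP' : P'.Monic := hQ.of_mul_monic_left hP
        have hc1 : IsCoprime Q (f * ∏ P ∈ S, P) := hcop.of_mul_left_left
        have hc2 : IsCoprime P' (f * ∏ P ∈ S, P) := hcop.of_mul_left_right
        rw [elem_r_mul_left hQ hP', mul_pow]
        have hQd : 0 < Q.natDegree := hQi.natDegree_pos
        have hdeg : (Q * P').natDegree = Q.natDegree + P'.natDegree := hQ.natDegree_mul hP'
        rw [ih P'.natDegree (by omega) P' rfl hP' hc2, mul_one]
        have hQS : Q ∉ S := by
          intro hm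
          have hd : Q ∣ f * ∏ P ∈ S, P := (Finset.dvd_prod_of_mem (fun P => P) hm).mul_left f
          exact hQi.not_isUnit (hc1.isUnit_of_dvd' dvd_rfl hd)
        have hg : ∃ g : Polynomial F, Q ∣ f - g ^ N := by
          by_contra hno
          exact hQS (hfin.mem_toFinset.2 ⟨hQ, hQi, hno⟩)
        obtain ⟨g, h, hgh⟩ := hg
        have hf' : f = g ^ N + Q * h := by rw [← hgh]; ring
        have hne : elem_r Q f ≠ 0 := elem_r_ne hQ hc1.of_mul_right_left
        have he : elem_r Q f = elem_r Q g ^ N := by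
          rw [hf', elem_r_add hQ, elem_r_pow hQ]
        rw [he] at hne ⊢
        have hg0 : elem_r Q g ≠ 0 := by
          intro h0
          rw [h0, zero_pow hN0.ne'] at hne
          exact hne rfl
        exact elem_pow_card N hN _ hg0
  exact fun P hP hc => key _ P rfl hP hc

theorem elem_gen (F : Type) [Field F] [Fintype F] :
    ∃ ζ : F, ζ ≠ 0 ∧ (∀ k : ℕ, ζ ^ k = 1 → Fintype.card F - 1 ∣ k) ∧ ∀ a : F, a ≠ 0 → ∃ k : ℕ, a = ζ ^ k := by
  classical
  obtain ⟨g, hg⟩ := IsCyclic.exists_generator (α := Fˣ)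
  refine ⟨(g : F), g.ne_zero, ?_, ?_⟩
  · intro k hk
    have h1 : g ^ k = 1 := by
      ext; push_cast; exact hk
    have h2 := orderOf_dvd_of_pow_eq_one h1
    rw [orderOf_eq_card_of_forall_mem_zpowers hg, Nat.card_eq_fintype_card, Fintype.card_units] at h2
    exact h2
  · intro a ha
    have h1 := hg (Units.mk0 a ha)
    rw [← mem_powers_iff_mem_zpowers, Submonoid.mem_powers_iff] at h1
    obtain ⟨k, hk⟩ := h1
    refine ⟨k, ?_⟩
    have := congrArg (fun u : Fˣ => (u : F)) hk
    simp only [Units.val_pow_eq_pow_val, Units.val_mk0] at this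
    exact this.symm

theorem elem_dvd {F : Type} [Field F] [Fintype F] (N : ℕ) (hN0 : 0 < N)
    (hN : N ∣ Fintype.card F - 1) (k : ℕ) (h : Fintype.card F - 1 ∣ k * ((Fintype.card F - 1) / N)) :
    N ∣ k := by
  obtain ⟨t, ht⟩ := hN
  have hq : 0 < Fintype.card F - 1 := by
    have := Fintype.one_lt_card (α := F); omega
  have ht0 : 0 < t := by
    rcases Nat.eq_zero_or_pos t with h0 | h0
    · rw [h0, mul_zero] at ht; omega
    · exact h0
  rw [ht, Nat.mul_div_cancel_left _ hN0] at h
  exact Nat.dvd_of_mul_dvd_mul_right ht0 h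

theorem elem_const {F : Type} [Field F] [Fintype F] (N : ℕ) (hN0 : 0 < N)
    (hN : N ∣ Fintype.card F - 1) (c : F) (hc : c ≠ 0) (h : elem_H N (C c)) :
    ∃ a : F, c = a ^ N := by
  classical
  obtain ⟨B, hB, hP⟩ := h
  set B' := B * C B.leadingCoeff⁻¹ with hB'
  have hBm : B'.Monic := monic_mul_leadingCoeff_inv hB
  set q := Fintype.card F - 1 with hq
  have hq0 : 0 < q := by
    have := Fintype.one_lt_card (α := F); omega
  set b := B'.natDegree with hb
  have hbq : b ≤ q * b := Nat.le_mul_of_pos_left _ hq0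
  set Q := B' * X ^ (q * b + 1 - b) with hQ
  have hQm : Q.Monic := hBm.mul (monic_X_pow _)
  have hQd : Q.natDegree = q * b + 1 := by
    rw [hQ, hBm.natDegree_mul (monic_X_pow _), natDegree_X_pow]; omega
  have hPm : (1 + Q).Monic := by
    apply hQm.add_of_right
    rw [degree_eq_natDegree hQm.ne_zero, hQd, degree_one]
    exact_mod_cast Nat.succ_pos _
  have hPd : (1 + Q).natDegree = q * b + 1 := by
    rw [natDegree_add_eq_right_of_natDegree_lt, hQd]
    rw [natDegree_one, hQd]; omega
  have hcop : IsCoprime (1 + Q) B := by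
    refine ⟨1, -(C B.leadingCoeff⁻¹ * X ^ (q * b + 1 - b)), ?_⟩
    rw [hQ, hB']; ring
  have h1 := hP _ hPm hcop
  rw [elem_r_C, hPd] at h1
  obtain ⟨ζ, hζ0, hζ1, hζ2⟩ := elem_gen F
  obtain ⟨k, hk⟩ := hζ2 c hc
  have h2 : c ^ (q * b + 1) = c := by
    rw [pow_succ, pow_mul, FiniteField.pow_card_sub_one_eq_one c hc, one_pow, one_mul]
  rw [h2, hk, ← pow_mul] at h1
  obtain ⟨t, ht⟩ := elem_dvd (F := F) N hN0 hN k (hζ1 _ h1)
  exact ⟨ζ ^ t, by rw [hk, ht, ← pow_mul, mul_comm N t]⟩

theorem elem_step {F : Type} [Field F] [Fintype F] (N : ℕ) (hN0 : 0 < N)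
    (hN : N ∣ Fintype.card F - 1) (f₁ g : Polynomial F) (m : ℕ) (hm : f₁.Monic)
    (hi : Irreducible f₁) (hg : g ≠ 0) (hnd : ¬ f₁ ∣ g) (h : elem_H N (f₁ ^ m * g)) : N ∣ m := by
  classical
  obtain ⟨B, hB, hP⟩ := h
  set q := Fintype.card F - 1 with hq
  have hq0 : 0 < q := by
    have := Fintype.one_lt_card (α := F); omega
  have hdpos : 0 < degree f₁ := natDegree_pos_iff_degree_pos.1 hi.natDegree_pos
  obtain ⟨B', hBB, hB'nd⟩ :=
    (finiteMultiplicity_of_degree_pos_of_monic hdpos hm hB).exists_eq_pow_mul_and_not_dvd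
  have hB'0 : B' ≠ 0 := by
    rintro rfl
    exact hB'nd (dvd_zero _)
  have hgB : g * B' ≠ 0 := mul_ne_zero hg hB'0
  set W := g * B' * C (g * B').leadingCoeff⁻¹ with hW
  have hWm : W.Monic := monic_mul_leadingCoeff_inv hgB
  have hprime : Prime f₁ := hi.prime
  have hWnd : ¬ f₁ ∣ W := by
    intro hd
    rw [hW] at hd
    have hu : IsUnit (C (g * B').leadingCoeff⁻¹ : Polynomial F) :=
      isUnit_C.2 (isUnit_iff_ne_zero.2 (inv_ne_zero (leadingCoeff_ne_zero.2 hgB)))
    rcases hprime.dvd_or_dvd ((hu.dvd_mul_right).1 hd) with h1 | h1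
    · exact hnd h1
    · exact hB'nd h1
  obtain ⟨a, b, hab⟩ := (hi.coprime_iff_not_dvd).2 hWnd
  have : Fact (Irreducible f₁) := ⟨hi⟩
  have : FiniteDimensional F (AdjoinRoot f₁) := (AdjoinRoot.powerBasis hm.ne_zero).finite
  have : Finite (AdjoinRoot f₁) := Module.finite_of_finite F
  obtain ⟨ζ, hζ0, hζ1, hζ2⟩ := elem_gen F
  obtain ⟨x, hx⟩ := FiniteField.norm_surjective F (AdjoinRoot f₁) ζ
  obtain ⟨γ, rfl⟩ := AdjoinRoot.mk_surjective x
  rw [elem_norm hm] at hx
  set P₀ := γ * b * W + a * f₁ with hP₀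
  have hfW : (f₁ * W).Monic := hm.mul hWm
  set e := (f₁ * W).natDegree with he
  set D := 2 * (q * (P₀.natDegree + e + 1)) with hD
  have hDq : P₀.natDegree + e + 1 ≤ q * (P₀.natDegree + e + 1) := Nat.le_mul_of_pos_left _ hq0
  set R := f₁ * W * X ^ (D - e) with hR
  have hRm : R.Monic := hfW.mul (monic_X_pow _)
  have hRd : R.natDegree = D := by
    rw [hR, hfW.natDegree_mul (monic_X_pow _), natDegree_X_pow]; omega
  have hlt : P₀.natDegree < R.natDegree := by rw [hRd]; omega
  have hPm : (P₀ + R).Monic := hRm.add_of_right (degree_lt_degree hlt)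
  have hPd : (P₀ + R).natDegree = D := by
    rw [natDegree_add_eq_right_of_natDegree_lt hlt, hRd]
  have hev : Even (P₀ + R).natDegree := by rw [hPd, hD]; exact even_two_mul _
  have h1 : P₀ + R = γ + f₁ * (a - γ * a + W * X ^ (D - e)) := by
    have : b * W = 1 - a * f₁ := by rw [← hab]; ring
    rw [hP₀, mul_assoc γ b W, this, hR]; ring
  have h2 : P₀ + R = 1 + W * (γ * b - b + f₁ * X ^ (D - e)) := by
    have : a * f₁ = 1 - b * W := by rw [← hab]; ring
    rw [hP₀, this, hR]; ring
  have hr1 : elem_r f₁ (P₀ + R) = ζ := by rw [h1, elem_r_add hm, hx]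
  have hcop : IsCoprime (P₀ + R) B := by
    rw [hBB]
    refine IsCoprime.mul_right (IsCoprime.pow_right ?_) ?_
    · exact (elem_coprime hm (by rw [hr1]; exact hζ0)).symm
    · refine ⟨1, -(g * C (g * B').leadingCoeff⁻¹ * (γ * b - b + f₁ * X ^ (D - e))), ?_⟩
      rw [h2, hW]; ring
  have h3 := hP _ hPm hcop
  set g₁ := g * C g.leadingCoeff⁻¹ with hg₁
  have hg₁m : g₁.Monic := monic_mul_leadingCoeff_inv hg
  have hlc : g.leadingCoeff ≠ 0 := leadingCoeff_ne_zero.2 hg
  have hgg : g = C g.leadingCoeff * g₁ := by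
    rw [hg₁, mul_comm, mul_assoc, ← C_mul, inv_mul_cancel₀ hlc, C_1, mul_one]
  have hrg : elem_r (P₀ + R) g = 1 := by
    rw [hgg, elem_r_mul hPm, elem_r_C, hPd, hD]
    have e1 : g.leadingCoeff ^ (2 * (q * (P₀.natDegree + e + 1))) = 1 := by
      rw [mul_comm 2, mul_assoc, pow_mul, FiniteField.pow_card_sub_one_eq_one _ hlc, one_pow]
    rw [e1, one_mul, elem_r_comm hev, h2]
    have e2 : W * (γ * b - b + f₁ * X ^ (D - e)) = g₁ * (C g.leadingCoeff * B' *
        C (g * B').leadingCoeff⁻¹ * (γ * b - b + f₁ * X ^ (D - e))) := by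
      have e3 : g₁ * C g.leadingCoeff = g := by rw [mul_comm]; exact hgg.symm
      calc W * (γ * b - b + f₁ * X ^ (D - e))
          = g * (B' * C (g * B').leadingCoeff⁻¹ * (γ * b - b + f₁ * X ^ (D - e))) := by
            rw [hW]; ring
        _ = g₁ * C g.leadingCoeff * (B' * C (g * B').leadingCoeff⁻¹ *
              (γ * b - b + f₁ * X ^ (D - e))) := by rw [e3]
        _ = _ := by ring
    rw [e2, elem_r_add hg₁m, elem_r_one]
  rw [elem_r_mul hPm, elem_r_pow hPm, hrg, mul_one, elem_r_comm hev, hr1, ← pow_mul] at h3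
  exact elem_dvd (F := F) N hN0 hN m (hζ1 _ h3)

theorem elem_main {F : Type} [Field F] [Fintype F] (N : ℕ) (hN0 : 0 < N)
    (hN : N ∣ Fintype.card F - 1) : ∀ (n : ℕ) (f : Polynomial F), f.natDegree = n → f ≠ 0 →
    elem_H N f → ∃ g : Polynomial F, f = g ^ N := by
  intro n
  induction n using Nat.strong_induction_on with
  | _ n ih =>
    intro f hn hf hH
    by_cases h0 : n = 0
    · rw [h0] at hn
      obtain ⟨c, rfl⟩ := natDegree_eq_zero.1 hn
      have hc : c ≠ 0 := by
        rintro rfl
        exact hf C_0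
      obtain ⟨a, ha⟩ := elem_const N hN0 hN c hc hH
      exact ⟨C a, by rw [ha, C_pow]⟩
    · have hnu : ¬ IsUnit f := by
        intro hu
        have := natDegree_eq_zero_of_isUnit hu
        omega
      obtain ⟨f₁, hm, hi, hd⟩ := exists_monic_irreducible_factor f hnu
      have hdpos : 0 < degree f₁ := natDegree_pos_iff_degree_pos.1 hi.natDegree_pos
      obtain ⟨g, hfg, hgnd⟩ :=
        (finiteMultiplicity_of_degree_pos_of_monic hdpos hm hf).exists_eq_pow_mul_and_not_dvd
      set m := multiplicity f₁ f with hmm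
      have hg0 : g ≠ 0 := by
        rintro rfl
        exact hgnd (dvd_zero _)
      have hm0 : m ≠ 0 := by
        intro h0
        rw [h0, pow_zero, one_mul] at hfg
        rw [hfg] at hd
        exact hgnd hd
      have hNm : N ∣ m := by
        apply elem_step N hN0 hN f₁ g m hm hi hg0 hgnd
        rw [← hfg]; exact hH
      obtain ⟨t, ht⟩ := hNm
      have hdeg : f.natDegree = m * f₁.natDegree + g.natDegree := by
        rw [hfg, natDegree_mul (pow_ne_zero _ hm.ne_zero) hg0, natDegree_pow]
      have hlt : g.natDegree < n := by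
        have h1 : 0 < m * f₁.natDegree := Nat.mul_pos (Nat.pos_of_ne_zero hm0) hi.natDegree_pos
        omega
      have hHg : elem_H N g := by
        obtain ⟨B, hB, hP⟩ := hH
        refine ⟨B * f₁, mul_ne_zero hB hm.ne_zero, ?_⟩
        intro P hPm hc
        have h1 := hP P hPm hc.of_mul_right_left
        have h2 : elem_r P f₁ ≠ 0 := elem_r_ne hPm hc.of_mul_right_right
        rw [hfg, elem_r_mul hPm, elem_r_pow hPm, mul_pow, ht, pow_mul (elem_r P f₁) N t,
          ← pow_mul (elem_r P f₁ ^ N) t, mul_comm t, pow_mul (elem_r P f₁ ^ N),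
          elem_pow_card N hN _ h2, one_pow, one_mul] at h1
        exact h1
      obtain ⟨h, hh⟩ := ih _ hlt g rfl hg0 hHg
      refine ⟨f₁ ^ t * h, ?_⟩
      rw [mul_pow, ← hh, ← pow_mul, mul_comm t N, ← ht]
      exact hfg

theorem st_ELEM : ST_ELEM := by
  intro F _ _ N hN0 hN f hf hfin
  exact elem_main N hN0 hN _ f rfl hf (elem_start N hN0 hN f hf hfin)

end Pool.Agent.Helper60.FF

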